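import Pool.Agent.AX.Res
import Pool.Agent.W3.LiftBase

/-!
The diagonal of the first function of the diagram chase.

Proof of `yp`. Let `C := Ω.closure (range u)`, `A := fun s => Pi.single (a s) 1`. The argument
`rarg S u (fun _ => x)` is `update (update A s1 x) s2 x` (`ha`, `hS`). `lb_lin` in the slot `s1`
(`Function.update_comm`): for every `F`,
`res S u (z1 {F}) (fun _ => x) = ∑ e, x e * z1 {F} (Y e)`, `Y e := update (update A s1 (Pi.single e 1)) s2 x`.
The entries of `Y e`: `x` in `s2`, `Pi.single e 1` in `s1`, `Pi.single (u t) 1` in the others. With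
`n1 F := #{t | u t ∉ F}`: `nv F (Y e) = n1 F + [e ∉ F] + [x ∈ van F]`, and `z1 {F} (Y e) = 0` if
`card ι ≤ rho F + nv F (Y e)` (`hz1`). The number of the `t : {s // s ∉ S}` is `card ι - 2`, and
`Ω.eRk C = card ι - 2`; `Ω.eRk (F ∪ range u) ≤ rho F + n1 F` and `≥ card ι - 2`.
For `e ∈ C`: `x e = 0`. Let `e ∉ C`.
* If `e ∉ P` and `Ω.closure (F ∪ range u) = P` then `e ∉ F` and `rho F + n1 F ≥ eRk P = card ι - 1`, so
  `z1 {F} (Y e) = 0`.
* If `e ∈ P` and `Ω.closure (F ∪ range u) =: P' ≠ P` then `z1 {F} (Y e) = 0`: if `P' = univ` then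
  `rho F + n1 F ≥ card ι`. If `eRk P' = card ι - 1` then `e ∉ P'` (otherwise `P'` contains
  `Ω.closure (insert e C) = P`, of the same rank), so `e ∉ F` and `rho F + n1 F + 1 ≥ card ι`. If
  `eRk P' = card ι - 2` then `P' = C`, `F ⊆ C`, `e ∉ F`, `x ∈ van k F` and `rho F + n1 F + 2 ≥ card ι`.
So the left side is `∑_{e ∈ P} x e * ∑ F, z1 {F} (Y e)`. As `bd (rho Ω) z1 ∅ = ∑ F, z1 {F}`
(`eps F ∅ = 1`) and `gt - bd z1 ∅ ∈ DG R {s2}`, `dg {s2} (Y e) x = Y e`, `x ∈ R`:
`∑ F, z1 {F} (Y e) = gt (Y e) = ∑ e', x e' * g (update (update a s1 e) s2 e')` (`lb_lin` in the slot `s2`, and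
`hgt`). For `e, e' ∈ P` the value of `g` is zero (`hsupp`: the range is contained in `P`, which has rank
`card ι - 1`, so it is not a base).
-/

set_option autoImplicit false

namespace Pool.Agent.AX2

open Pool.Agent.W3 Pool.Agent.AX

variable {E : Type*} [Fintype E] [DecidableEq E] {Ω : Matroid E} {k : Type*} [Field k]
  {R : Submodule k (E → k)} {ι : Type*} [Fintype ι] [DecidableEq ι]

omit [DecidableEq E] in
private theorem rho_coe_YP (F : PF Ω) : (rho Ω F : ℕ∞) = Ω.eRk F.1 :=
  ENat.natCast_toNat (ne_top_of_le_ne_top (Set.encard_ne_top_iff.2 F.1.toFinite)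
    (Ω.eRk_le_encard F.1))

omit [DecidableEq E] in
open Classical in
private theorem eRk_union_YP {κ' : Type*} [Fintype κ'] (u : κ' → E) (F : PF Ω) :
    Ω.eRk (F.1 ∪ Set.range u) ≤
      ((rho Ω F + (Finset.univ.filter (fun t => u t ∉ F.1)).card : ℕ) : ℕ∞) := by
  have h1 : F.1 ∪ Set.range u = F.1 ∪ u '' {t | u t ∉ F.1} := by
    ext e
    constructor
    · rintro (h | ⟨t, rfl⟩)
      · exact Or.inl h
      · by_cases hF : u t ∈ F.1
        · exact Or.inl hF
        · exact Or.inr ⟨t, hF, rfl⟩
    · rintro (h | ⟨t, _, rfl⟩)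
      · exact Or.inl h
      · exact Or.inr ⟨t, rfl⟩
  rw [h1]
  refine (Ω.eRk_union_le_eRk_add_eRk _ _).trans ?_
  rw [Nat.cast_add, rho_coe_YP]
  refine add_le_add_right ((Ω.eRk_le_encard _).trans
    ((Set.encard_image_le _ _).trans (le_of_eq ?_))) _
  rw [← Set.encard_coe_eq_coe_finsetCard]
  congr 1
  ext t
  simp

private theorem zero_YP {F : PF Ω} {f : ML k E ι} (hf : f ∈ JF Ω F) {S : Finset ι}
    (u : {s // s ∉ S} → E) (y : {s // s ∈ S} → E → k) (n : ℕ) (hn : n ≤ nv F.1 y)
    (h : (Fintype.card ι : ℕ∞) ≤ Ω.eRk (F.1 ∪ Set.range u) + n) : f (rarg S u y) = 0 := by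
  classical
  apply hf
  rw [← nv_rarg]
  have h1 := h.trans (add_le_add_left (eRk_union_YP u F) (n : ℕ∞))
  have h2 : Fintype.card ι ≤ rho Ω F +
      (Finset.univ.filter (fun t => u t ∉ F.1)).card + n := by exact_mod_cast h1
  unfold thr
  have h3 : (@Finset.filter _ (fun t => u t ∉ F.1)
      (fun t => instDecidableNot) Finset.univ).card = (Finset.univ.filter
        (fun t => u t ∉ F.1)).card := by
    congr 1
  omega

omit [DecidableEq E] in
private theorem cov_closure_YP (hΩ : Ω.E = Set.univ) {G P : Set E} (hP : Cov Ω G P) {y : E}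
    (hyP : y ∈ P) (hy : y ∉ G) : Ω.closure (insert y G) = P := by
  have h1 : Ω.eRk (insert y G) = Ω.eRk G + 1 := by
    apply Matroid.eRk_insert_eq_add_one
    rw [hP.1.closure]
    exact ⟨by rw [hΩ]; exact Set.mem_univ y, hy⟩
  have hfin : Ω.IsRkFinite (insert y G) := Ω.isRkFinite_of_finite (Set.toFinite _)
  have hsub : insert y G ⊆ P := Set.insert_subset hyP hP.2.2.1
  have h2 := hfin.closure_eq_closure_of_subset_of_eRk_ge_eRk hsub (by rw [h1, hP.2.2.2])
  rw [h2, hP.2.1.closure]

open Classical in
theorem yp (hΩ : Ω.E = Set.univ) (hrk : Ω.eRank = Fintype.card ι) {s1 s2 : ι} (h12 : s1 ≠ s2)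
    {S : Finset ι} (hS : S = {s1, s2}) {g : (ι → E) → k} {gt : ML k E ι}
    (hgt : ∀ a : ι → E, gt (fun s => Pi.single (a s) 1) = g a)
    (hsupp : ∀ a, g a ≠ 0 → Function.Injective a ∧ Ω.IsBase (Set.range a))
    {z1 : Finset (PF Ω) → ML k E ι} (hz1 : ∀ F : PF Ω, z1 {F} ∈ JF Ω F)
    (hb : gt - bd (rho Ω) z1 ∅ ∈ DG R {s2}) (u : {s // s ∉ S} → E)
    (hu : Function.Injective u) (hi : Ω.Indep (Set.range u)) {P : Set E}
    (hP : Cov Ω (Ω.closure (Set.range u)) P) {x : E → k}
    (hx : x ∈ R ⊓ van k (Ω.closure (Set.range u))) (a : ι → E)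
    (ha : ∀ t : {s // s ∉ S}, a t.1 = u t) :
    ∑ F : PF Ω, (if Ω.closure (F.1 ∪ Set.range u) = P then
        res S u (z1 {F}) (fun _ => x) else 0) =
      ∑ e, ∑ e', (if e ∈ P ∧ e' ∉ P then
        x e * x e' * g (Function.update (Function.update a s1 e) s2 e') else 0) := by
  obtain ⟨A, hA⟩ : ∃ A : ι → E → k, A = fun s => Pi.single (a s) 1 := ⟨_, rfl⟩
  obtain ⟨Y, hY⟩ : ∃ Y : E → ι → E → k,
      Y = fun e => Function.update (Function.update A s1 (Pi.single e 1)) s2 x := ⟨_, rfl⟩
  obtain ⟨yv, hyv⟩ : ∃ yv : E → {s // s ∈ S} → E → k,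
      yv = fun e s => if s.1 = s1 then Pi.single e 1 else x := ⟨_, rfl⟩
  have hs1 : s1 ∈ S := by rw [hS]; simp
  have hs2 : s2 ∈ S := by rw [hS]; simp
  have hSc : S.card = 2 := by rw [hS]; exact Finset.card_pair h12
  have hxR : x ∈ R := hx.1
  have hxC : x ∈ van k (Ω.closure (Set.range u)) := hx.2
  obtain ⟨C, hC⟩ : ∃ C, C = Ω.closure (Set.range u) := ⟨_, rfl⟩
  rw [← hC] at hP hxC
  -- the ranks
  obtain ⟨r, hr⟩ : ∃ r, r = Fintype.card {s // s ∉ S} := ⟨_, rfl⟩
  have hr2 : r + 2 = Fintype.card ι := by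
    have h1 := Fintype.card_subtype_compl (fun s : ι => s ∈ S)
    have h2 : Fintype.card {s // s ∈ S} = 2 := by rw [Fintype.card_coe, hSc]
    rw [h2] at h1
    have h3 : 2 ≤ Fintype.card ι := by
      rw [← hSc]
      exact Finset.card_le_univ S
    rw [hr]
    omega
  have hCr : Ω.eRk C = (r : ℕ∞) := by
    rw [hC, Ω.eRk_closure_eq, hi.eRk_eq_encard, ← Set.image_univ, hu.encard_image,
      Set.encard_univ, ENat.card_eq_coe_fintype_card, hr]
  have hPr : Ω.eRk P = ((r + 1 : ℕ) : ℕ∞) := by
    rw [hP.2.2.2, hCr]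
    push_cast
    rfl
  have huC : ∀ t, u t ∈ C := by
    intro t
    rw [hC]
    exact Ω.subset_closure _ (by rw [hΩ]; exact Set.subset_univ _) ⟨t, rfl⟩
  -- `rarg` and `Y`
  have hrY : ∀ e, rarg S u (yv e) = Y e := by
    intro e
    funext s
    rw [hY, hyv]
    unfold rarg
    by_cases hs : s ∈ S
    · rw [dif_pos hs]
      rw [hS, Finset.mem_insert, Finset.mem_singleton] at hs
      rcases hs with rfl | rfl
      · simp only [if_true]
        rw [Function.update_of_ne h12, Function.update_self]
      · simp only [if_neg (Ne.symm h12)]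
        rw [Function.update_self]
    · rw [dif_neg hs]
      have e1 : s ≠ s2 := fun h => hs (by rw [h]; exact hs2)
      have e2 : s ≠ s1 := fun h => hs (by rw [h]; exact hs1)
      simp only []
      rw [Function.update_of_ne e1, Function.update_of_ne e2, hA, ← ha ⟨s, hs⟩]
  have hrx : rarg S u (fun _ => x) = Function.update (Function.update A s2 x) s1 x := by
    funext s
    unfold rarg
    by_cases hs : s ∈ S
    · rw [dif_pos hs]
      rw [hS, Finset.mem_insert, Finset.mem_singleton] at hs
      rcases hs with rfl | rfl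
      · rw [Function.update_self]
      · rw [Function.update_of_ne (Ne.symm h12), Function.update_self]
    · rw [dif_neg hs]
      have e1 : s ≠ s2 := fun h => hs (by rw [h]; exact hs2)
      have e2 : s ≠ s1 := fun h => hs (by rw [h]; exact hs1)
      rw [Function.update_of_ne e2, Function.update_of_ne e1, hA, ← ha ⟨s, hs⟩]
  have hlin : ∀ F : PF Ω, res S u (z1 {F}) (fun _ => x) = ∑ e, x e * z1 {F} (Y e) := by
    intro F
    rw [res_apply, hrx, lb_lin]
    refine Finset.sum_congr rfl fun e _ => ?_
    rw [hY, Function.update_comm (Ne.symm h12)]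
  -- the numbers of vanishing arguments
  have hnv1 : ∀ (F : PF Ω) e, e ∉ F.1 → 1 ≤ nv F.1 (yv e) := by
    intro F e he
    unfold nv
    rw [Nat.one_le_iff_ne_zero, Finset.card_ne_zero]
    refine ⟨⟨s1, hs1⟩, Finset.mem_filter.2 ⟨Finset.mem_univ _, ?_⟩⟩
    rw [hyv]
    simp only [if_true]
    intro e' he'
    exact Pi.single_eq_of_ne (fun h => he (by rw [← h]; exact he')) _
  have hnv2 : ∀ (F : PF Ω) e, e ∉ F.1 → x ∈ van k F.1 → 2 ≤ nv F.1 (yv e) := by
    intro F e he hxF
    unfold nv
    rw [Finset.filter_true_of_mem, Finset.card_univ, Fintype.card_coe, hSc]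
    intro s _
    rw [hyv]
    by_cases h : s.1 = s1
    · simp only [if_pos h]
      intro e' he'
      exact Pi.single_eq_of_ne (fun h => he (by rw [← h]; exact he')) _
    · simp only [if_neg h]
      exact hxF
  -- the vanishing
  have hFsub : ∀ F : PF Ω, F.1 ⊆ Ω.closure (F.1 ∪ Set.range u) := by
    intro F
    refine Set.subset_union_left.trans (Ω.subset_closure _ ?_)
    rw [hΩ]
    exact Set.subset_univ _
  have hzA : ∀ F : PF Ω, Ω.closure (F.1 ∪ Set.range u) = P → ∀ e, e ∉ P → z1 {F} (Y e) = 0 := by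
    intro F hF e he
    rw [← hrY]
    have heF : e ∉ F.1 := by
      intro h
      apply he
      rw [← hF]
      exact hFsub F h
    refine zero_YP (hz1 F) u (yv e) 1 (hnv1 F e heF) ?_
    rw [← Ω.eRk_closure_eq, hF, hPr, ← hr2]
    exact_mod_cast le_refl _
  have hzB : ∀ F : PF Ω, Ω.closure (F.1 ∪ Set.range u) ≠ P → ∀ e, e ∈ P → e ∉ C →
      z1 {F} (Y e) = 0 := by
    intro F hF e heP heC
    rw [← hrY]
    obtain ⟨P', hP'⟩ : ∃ P', P' = Ω.closure (F.1 ∪ Set.range u) := ⟨_, rfl⟩
    rw [← hP'] at hF
    have hfl : Ω.IsFlat P' := by rw [hP']; exact Ω.isFlat_closure _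
    have hCP : C ⊆ P' := by
      rw [hC, hP']
      exact Ω.closure_subset_closure Set.subset_union_right
    have hFP : F.1 ⊆ P' := by rw [hP']; exact hFsub F
    have hne : Ω.eRk P' ≠ ⊤ := ne_top_of_le_ne_top (Set.encard_ne_top_iff.2 P'.toFinite)
      (Ω.eRk_le_encard P')
    obtain ⟨n, hn⟩ : ∃ n : ℕ, Ω.eRk P' = (n : ℕ∞) := ⟨_, (ENat.natCast_toNat hne).symm⟩
    have hle : r ≤ n := by
      have := Ω.eRk_mono hCP
      rw [hCr, hn] at this
      exact_mod_cast this
    have heq : Ω.eRk (F.1 ∪ Set.range u) = (n : ℕ∞) := by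
      rw [← Ω.eRk_closure_eq, ← hP', hn]
    rcases Nat.lt_or_ge n (r + 2) with h1 | h1
    · rcases Nat.lt_or_ge n (r + 1) with h2 | h2
      · -- `P' = C`
        have h3 : n = r := by omega
        have hPC : C = P' := by
          have hfin : Ω.IsRkFinite C := Ω.isRkFinite_of_finite (Set.toFinite _)
          have h4 := hfin.closure_eq_closure_of_subset_of_eRk_ge_eRk hCP (by rw [hCr, hn, h3])
          rw [hfl.closure, hP.1.closure] at h4
          exact h4
        have heF : e ∉ F.1 := fun h => heC (by rw [hPC]; exact hFP h)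
        have hxF : x ∈ van k F.1 := by
          intro e' he'
          apply hxC
          rw [hPC]
          exact hFP he'
        refine zero_YP (hz1 F) u (yv e) 2 (hnv2 F e heF hxF) ?_
        rw [heq, ← hr2, h3]
        exact_mod_cast le_refl _
      · have h3 : n = r + 1 := by omega
        have hcov : Cov Ω C P' := by
          refine ⟨hP.1, hfl, hCP, ?_⟩
          rw [hn, hCr, h3]
          push_cast
          rfl
        have heF : e ∉ F.1 := by
          intro h
          apply hF
          rw [← cov_closure_YP hΩ hcov (hFP h) heC, ← cov_closure_YP hΩ hP heP heC]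
        refine zero_YP (hz1 F) u (yv e) 1 (hnv1 F e heF) ?_
        rw [heq, ← hr2, h3]
        exact_mod_cast le_refl _
    · refine zero_YP (hz1 F) u (yv e) 0 (Nat.zero_le _) ?_
      rw [heq, ← hr2]
      exact_mod_cast (by omega : r + 2 ≤ n + 0)
  -- the left side
  have hL : ∑ F : PF Ω, (if Ω.closure (F.1 ∪ Set.range u) = P then
        res S u (z1 {F}) (fun _ => x) else 0) =
      ∑ e, (if e ∈ P then x e * ∑ F : PF Ω, z1 {F} (Y e) else 0) := by
    have h1 : ∀ F : PF Ω, (if Ω.closure (F.1 ∪ Set.range u) = P then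
        res S u (z1 {F}) (fun _ => x) else 0) =
        ∑ e, (if e ∈ P then x e * z1 {F} (Y e) else 0) := by
      intro F
      by_cases hF : Ω.closure (F.1 ∪ Set.range u) = P
      · rw [if_pos hF, hlin]
        refine Finset.sum_congr rfl fun e _ => ?_
        by_cases he : e ∈ P
        · rw [if_pos he]
        · rw [if_neg he, hzA F hF e he, mul_zero]
      · rw [if_neg hF]
        symm
        refine Finset.sum_eq_zero fun e _ => ?_
        by_cases he : e ∈ P
        · rw [if_pos he]
          by_cases heC : e ∈ C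
          · rw [hxC e heC, zero_mul]
          · rw [hzB F hF e he heC, mul_zero]
        · rw [if_neg he]
    rw [Finset.sum_congr rfl fun F _ => h1 F, Finset.sum_comm]
    refine Finset.sum_congr rfl fun e _ => ?_
    by_cases he : e ∈ P
    · simp only [if_pos he]
      rw [Finset.mul_sum]
    · simp only [if_neg he]
      exact Finset.sum_const_zero
  rw [hL]
  refine Finset.sum_congr rfl fun e _ => ?_
  by_cases he : e ∈ P
  · rw [if_pos he]
    -- the sum of the `z1 {F} (Y e)`
    have hbd : bd (rho Ω) z1 ∅ = ∑ F : PF Ω, z1 {F} := by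
      unfold bd
      refine Finset.sum_congr (by simp) fun F _ => ?_
      have h1 : insert F (∅ : Finset (PF Ω)) = {F} := by
        ext G
        simp
      have h2 : eps (rho Ω) F (∅ : Finset (PF Ω)) = 1 := by
        unfold eps
        simp
      rw [h2, one_smul, h1]
    have hdg : dg {s2} (Y e) x = Y e := by
      funext s
      unfold dg
      by_cases h : s ∈ ({s2} : Finset ι)
      · rw [if_pos h]
        rw [Finset.mem_singleton] at h
        rw [h, hY]
        simp only [Function.update_self]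
      · rw [if_neg h]
    have h3 := hb (Y e) x hxR
    rw [hdg, hbd, sub_apply, sum_apply, sub_eq_zero] at h3
    rw [← h3]
    have h4 : gt (Y e) = ∑ e', x e' * g (Function.update (Function.update a s1 e) s2 e') := by
      rw [hY]
      simp only []
      rw [lb_lin]
      refine Finset.sum_congr rfl fun e' _ => ?_
      rw [← hgt]
      congr 2
      funext s
      by_cases h5 : s = s2
      · subst h5
        rw [Function.update_self, Function.update_self]
      · rw [Function.update_of_ne h5, Function.update_of_ne h5]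
        by_cases h6 : s = s1
        · subst h6
          rw [Function.update_self, Function.update_self]
        · rw [Function.update_of_ne h6, Function.update_of_ne h6, hA]
    rw [h4, Finset.mul_sum]
    refine Finset.sum_congr rfl fun e' _ => ?_
    by_cases he' : e' ∈ P
    · rw [if_neg (fun h => h.2 he')]
      have h7 : g (Function.update (Function.update a s1 e) s2 e') = 0 := by
        by_contra hne
        obtain ⟨_, hbase⟩ := hsupp _ hne
        have hsub : Set.range (Function.update (Function.update a s1 e) s2 e') ⊆ P := by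
          rintro _ ⟨s, rfl⟩
          by_cases h5 : s = s2
          · subst h5
            rw [Function.update_self]
            exact he'
          · rw [Function.update_of_ne h5]
            by_cases h6 : s = s1
            · subst h6
              rw [Function.update_self]
              exact he
            · rw [Function.update_of_ne h6]
              have hs : s ∉ S := by
                rw [hS, Finset.mem_insert, Finset.mem_singleton]
                push Not
                exact ⟨h6, h5⟩
              have := ha ⟨s, hs⟩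
              simp only at this
              rw [this]
              exact hP.2.2.1 (huC _)
        have h8 := Ω.eRk_mono hsub
        rw [hbase.eRk_eq_eRank, hrk, hPr, ← hr2] at h8
        have h9 : r + 2 ≤ r + 1 := by exact_mod_cast h8
        omega
      rw [h7, mul_zero, mul_zero]
    · rw [if_pos ⟨he, he'⟩, mul_assoc]
  · rw [if_neg he]
    symm
    refine Finset.sum_eq_zero fun e' _ => ?_
    rw [if_neg (fun h => he h.1)]

end Pool.Agent.AX2
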