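import Pool.Agent.AX2.HRow2
import Pool.Agent.AX.Core4

/-!
Partitions of the ground set of a matroid which is represented over some field are connected.
-/

set_option autoImplicit false

namespace Pool.Agent.AX2

open Set Pool.Agent.W3 Pool.Agent.AX

section

variable {E : Type*} [Fintype E] [DecidableEq E] {N Ω : Matroid E} {q : ℕ} {k T : Type*}
  [Field k] [AddCommGroup T] [Module k T] {v : E → T} {m : ℕ}

/-- The lifting theorem for `gf` in characteristic two. -/
theorem lifting_gf2 [CharP k 2] [Infinite k] (hc : Compl N Ω q) (hv : IsRep k N v)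
    (hq : 2 ≤ q) (hm : 1 ≤ m) (hrk : Ω.eRank = m) (b : Module.Basis (Fin m) k T)
    {P0 : Fin (q + 1) → Set E} (h0 : Pool.Agent.WD.IsPartn N univ P0) :
    ∃ G : ML k E (Fin m), G ∈ AL k E (∅ : Finset (Fin m)) ∧ G ∈ TT (Rel k v) Finset.univ ∧
      ∀ c : Fin m → E, Function.Injective c → Ω.IsBase (Set.range c) →
        G (fun s => Pi.single (c s) 1) = gf N Ω P0 v b c := by
  have hrk' : Ω.eRank = Fintype.card (Fin m) := by rw [hrk, Fintype.card_fin]
  exact lifting_gen hc hv hq hm hrk (gf N Ω P0 v b)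
    (fun a t t' h ha => gf_eq b a t t' h ha) (fun a t t' h => gf_swap b a t t' h)
    (fun a ha => by
      unfold gf at ha
      by_contra h
      rw [if_neg h] at ha
      exact ha rfl)
    (fun s a ha hA L hL => gf_LL hc hv (by omega) hrk' b h0 s a ha hA L hL)
    (fun gt z1 hm2 halt hgt hz1 hb => hrow2 hc hv hq hrk hm2 b h0 gt z1 halt hgt hz1 hb)

end

variable {E : Type*} [Fintype E] {N : Matroid E} {q : ℕ} {k T : Type*}
  [Field k] [AddCommGroup T] [Module k T] {v : E → T}

theorem core5_span [CharP k 2] [Infinite k] (hN : N.E = univ) (hv : IsRep k N v)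
    (hspan : Submodule.span k (range v) = ⊤) (hq : 2 ≤ q)
    (P Q : Fin (q + 1) → Set E)
    (hP : Pool.Agent.WD.IsPartn N univ P) (hQ : Pool.Agent.WD.IsPartn N univ Q) :
    Relation.ReflTransGen (Pool.Agent.WD.Share N univ) P Q := by
  classical
  rcases Nat.eq_zero_or_pos (P 0).ncard with h0 | hm
  · have hcard : ∀ B, N.IsBase B → B = ∅ := by
      intro B hB
      have h1 : (P 0) = ∅ := (Set.ncard_eq_zero (Set.toFinite _)).1 h0
      have h3 := hB.encard_eq_encard_of_isBase (hP.1.1 0)
      rw [h1, Set.encard_empty, Set.encard_eq_zero] at h3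
      exact h3
    have : P = Q := by
      funext i
      rw [hcard _ (hP.1.1 i), hcard _ (hQ.1.1 i)]
    rw [this]
  obtain ⟨Ω, hc⟩ := exists_compl (q := q) hN ⟨P 0, _, state_of_partn hP 0⟩
  have hB0 : N.IsBase (P 0) := hP.1.1 0
  have hQ0 : N.IsBase (Q 0) := hQ.1.1 0
  have hΩP : Ω.IsBase (P 0) := (hc.base _).2 ⟨_, state_of_partn hP 0⟩
  have hΩQ : Ω.IsBase (Q 0) := (hc.base _).2 ⟨_, state_of_partn hQ 0⟩
  obtain ⟨m, hmP⟩ : ∃ m, m = (P 0).ncard := ⟨_, rfl⟩
  have hrk : Ω.eRank = m := by
    rw [← hΩP.encard_eq_eRank, hmP, Set.Finite.cast_ncard_eq (Set.toFinite _)]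
  have hrk' : Ω.eRank = Fintype.card (Fin m) := by rw [hrk, Fintype.card_fin]
  let _ : Fintype ↥(P 0) := Fintype.ofFinite _
  have hcard : Fintype.card ↥(P 0) = m := by
    rw [hmP, ← Nat.card_eq_fintype_card, Nat.card_coe_set_eq]
  have hli : LinearIndependent k (fun x : ↥(P 0) => v x) := (hv (P 0)).1 hB0.indep
  have hsp : ⊤ ≤ Submodule.span k (range (fun x : ↥(P 0) => v x)) := by
    rw [← hspan, Submodule.span_le]
    rintro _ ⟨e, rfl⟩
    have he : e ∈ N.closure (P 0) := by
      rw [hB0.closure_eq, hN]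
      exact mem_univ e
    have h1 := (mem_closure_iff hN hv (P 0) e).1 he
    rw [image_eq_range] at h1
    exact h1
  let b : Module.Basis (Fin m) k T :=
    (Module.Basis.mk hli hsp).reindex (Fintype.equivFinOfCardEq hcard)
  obtain ⟨G, hG1, hG2, hGg⟩ := lifting_gf2 hc hv hq (by omega) hrk b hP
  have h1 := chi_const2 hN hv hspan hrk' b hG1 hG2 hGg hB0 hQ0 hΩP hΩQ
  rw [chi_self] at h1
  exact reach_of_chi hP hQ 0 (by rw [← h1]; exact one_ne_zero)

theorem core5 [CharP k 2] [Infinite k] (hN : N.E = univ) (hv : IsRep k N v)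
    (hq : 2 ≤ q) (P Q : Fin (q + 1) → Set E)
    (hP : Pool.Agent.WD.IsPartn N univ P) (hQ : Pool.Agent.WD.IsPartn N univ Q) :
    Relation.ReflTransGen (Pool.Agent.WD.Share N univ) P Q := by
  let v' : E → ↥(Submodule.span k (range v)) := fun e =>
    ⟨v e, Submodule.subset_span ⟨e, rfl⟩⟩
  have hv' : IsRep k N v' := by
    intro I
    rw [hv I]
    exact (LinearMap.linearIndependent_iff (v := fun x : ↥I => v' x)
      (Submodule.span k (range v)).subtype (Submodule.ker_subtype _))
  have hs' : Submodule.span k (range v') = ⊤ := by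
    have h1 : range v' = ((↑) : ↥(Submodule.span k (range v)) → T) ⁻¹' (range v) := by
      ext x
      constructor
      · rintro ⟨e, rfl⟩
        exact ⟨e, rfl⟩
      · rintro ⟨e, he⟩
        exact ⟨e, Subtype.ext he⟩
    rw [h1]
    exact Submodule.span_span_coe_preimage
  exact core5_span hN hv' hs' hq P Q hP hQ

/-- Every field. -/
theorem core6 (hN : N.E = univ) (hv : IsRep k N v)
    (hq : 2 ≤ q) (P Q : Fin (q + 1) → Set E)
    (hP : Pool.Agent.WD.IsPartn N univ P) (hQ : Pool.Agent.WD.IsPartn N univ Q) :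
    Relation.ReflTransGen (Pool.Agent.WD.Share N univ) P Q := by
  by_cases h2 : (2 : k) = 0
  · have h3 : (2 : AlgebraicClosure k) = 0 := by
      have := congrArg (algebraMap k (AlgebraicClosure k)) h2
      rw [map_zero, map_ofNat] at this
      exact this
    have : CharP (AlgebraicClosure k) 2 := CharTwo.of_one_ne_zero_of_two_eq_zero one_ne_zero h3
    exact core5 hN (isRep_ext (AlgebraicClosure k) hv) hq P Q hP hQ
  · exact core4 h2 hN hv hq P Q hP hQ

end Pool.Agent.AX2
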