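import Pool.Agent.AX2.RowU2
import Pool.Agent.AX2.YP
import Pool.Agent.AX.Asm
import Pool.Agent.AX.Part
import Pool.Agent.QC.Bridge

/-!
The second step of the diagram chase in characteristic two.

Proof. Let `S := hi m (m - 2)` (two slots, `hi_two`: `S = {s1, s2}` with `s1 = m - 2`, `s2 = m - 1`) and
`hi m (m - 1) = {s2}`.
Apply `asm` (AX/Asm) with `ι := Fin m`, `j := 1` to `z1`: `Adm (JL Ω S) 1 z1` because
`JL Ω (hi m (m - 1)) F ≤ JL Ω (hi m (m - 2)) F` (`al_anti`, `{s2} ⊆ S`). For `u : {s // s ∉ S} → E` the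
statement `RowSt Ω R m 1 u (fun c => res S u (z1 c))` is `rowU2` with `κ := {s // s ∈ S}`,
`κ' := {s // s ∉ S}`:
* `h1`: if `res S u (z1 c) ≠ 0` then `z1 c ≠ 0`, `hz1.card`. `h2`: `res_jf` (`hz1.mem` for `c = {F}`).
* `h3`: `bd (rho Ω) (fun c => res S u (z1 c)) ∅ = res S u (bd (rho Ω) z1 ∅)` (`bd_map`);
  `bd z1 ∅ = gt - (gt - bd z1 ∅)`, `gt ∈ AL k E ∅ ≤ DG R S` (`al_le_dg` with the slots `s1`, `s2`) and
  `gt - bd z1 ∅ ∈ DG R {s2} ≤ DG R S` (`dg_anti`); so it is in `DG R S`, and `res_dg`.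
* `hH`: let `a` be an extension of `u` (`E` is not empty: `P` has an element, `Cov`). `yp` for `g := gf ..`
  (`hsupp`: by definition of `gf`) gives that the sum is the sum of `QC.bridge`, which is zero:
  `a '' {s1, s2}ᶜ = range u`, `a` is injective on `{s1, s2}ᶜ`.
-/

set_option autoImplicit false

namespace Pool.Agent.AX2

open Set Pool.Agent.W3 Pool.Agent.AX

variable {E : Type*} [Fintype E] [DecidableEq E] {N Ω : Matroid E} {q : ℕ} {k T : Type*}
  [Field k] [AddCommGroup T] [Module k T] {v : E → T} {m : ℕ}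

theorem hi_two (hm : 2 ≤ m) : hi m (m - 2) =
    {(⟨m - 2, by omega⟩ : Fin m), (⟨m - 1, by omega⟩ : Fin m)} := by
  ext s
  rw [mem_hi, Finset.mem_insert, Finset.mem_singleton, Fin.ext_iff, Fin.ext_iff]
  have := s.2
  show m - 2 ≤ s.val ↔ s.val = m - 2 ∨ s.val = m - 1
  omega

attribute [-instance] Pool.Agent.QC.instFintypeSS

private theorem hrow2_card (S : Finset (Fin m)) :
    Fintype.card {s // s ∈ S} + Fintype.card {s // s ∉ S} = m := by
  have h1 := Fintype.card_subtype_compl (fun s => s ∈ S)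
  have h2 := Fintype.card_subtype_le (fun s => s ∈ S)
  rw [Fintype.card_fin] at h1 h2
  omega

theorem hrow2 [CharP k 2] [Infinite k] (hc : Compl N Ω q) (hv : IsRep k N v) (hq : 2 ≤ q)
    (hrk : Ω.eRank = m) (hm : 2 ≤ m) (b : Module.Basis (Fin m) k T)
    {P0 : Fin (q + 1) → Set E} (h0 : Pool.Agent.WD.IsPartn N univ P0)
    (gt : ML k E (Fin m)) (z1 : Finset (PF Ω) → ML k E (Fin m))
    (halt : gt ∈ AL k E (∅ : Finset (Fin m)))
    (hgt : ∀ a : Fin m → E, gt (fun s => Pi.single (a s) 1) = gf N Ω P0 v b a)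
    (hz1 : Adm (JL Ω (hi m (m - 1))) 1 z1)
    (hb : gt - bd (rho Ω) z1 ∅ ∈ DG (Rel k v) (hi m (m - 1))) :
    ∃ w : Finset (PF Ω) → ML k E (Fin m), Adm (JL Ω (hi m (m - 2))) 2 w ∧
      ∀ c, z1 c - bd (rho Ω) w c ∈ DG (Rel k v) (hi m (m - 2)) := by
  classical
  have hrk' : Ω.eRank = Fintype.card (Fin m) := by rw [Fintype.card_fin, hrk]
  have h12 : (⟨m - 2, by omega⟩ : Fin m) ≠ (⟨m - 1, by omega⟩ : Fin m) := by
    rw [Ne, Fin.ext_iff]
    show ¬ (m - 2 = m - 1)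
    omega
  have hS := hi_two (m := m) hm
  have hS2 : hi m (m - 1) = {(⟨m - 1, by omega⟩ : Fin m)} := by
    ext s
    rw [mem_hi, Finset.mem_singleton, Fin.ext_iff]
    have := s.2
    show m - 1 ≤ s.val ↔ s.val = m - 1
    omega
  have hle : hi m (m - 1) ⊆ hi m (m - 2) := by
    intro s hs
    rw [mem_hi] at hs ⊢
    omega
  have hsupp : ∀ a : Fin m → E, gf N Ω P0 v b a ≠ 0 →
      Function.Injective a ∧ Ω.IsBase (Set.range a) := by
    intro a ha
    unfold gf at ha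
    by_contra h
    rw [if_neg h] at ha
    exact ha rfl
  have hz : Adm (JL Ω (hi m (m - 2))) 1 z1 :=
    ⟨hz1.chain, hz1.card, fun c F hF => ⟨(hz1.mem c F hF).1, al_anti hle (hz1.mem c F hF).2⟩⟩
  have hcardS0 : (hi m (m - 2)).card = 2 := by
    rw [hS, Finset.card_pair h12]
  have hcardS := (Fintype.card_coe (hi m (m - 2))).trans hcardS0
  have hcard2 := hrow2_card (hi m (m - 2))
  have hJF : ∀ F : PF Ω, z1 {F} ∈ JF Ω F := fun F =>
    (hz1.mem {F} F (Finset.mem_singleton_self F)).1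
  have hbd0 : bd (rho Ω) z1 ∅ ∈ DG (Rel k v) (hi m (m - 2)) := by
    have h3 : bd (rho Ω) z1 ∅ = gt - (gt - bd (rho Ω) z1 ∅) := by abel
    rw [h3]
    refine Submodule.sub_mem _ ?_ (dg_anti hle hb)
    exact al_le_dg (s := (⟨m - 2, by omega⟩ : Fin m)) (s' := (⟨m - 1, by omega⟩ : Fin m))
      (Finset.notMem_empty _) (Finset.notMem_empty _) h12
      (mem_hi.2 (le_refl (m - 2))) (mem_hi.2 (by show m - 2 ≤ m - 1; omega)) halt
  refine asm (R := Rel k v) (S := hi m (m - 2)) (j := 1) le_rfl hz ?_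
  intro u
  rw [Fintype.card_fin]
  refine rowU2 (R := Rel k v) hc.ground hrk hcard2 hcardS u
    (fun c => res (hi m (m - 2)) u (z1 c)) ?_ ?_ ?_ ?_
  · intro c hc0
    apply hz1.card c
    intro h0
    apply hc0
    show res (hi m (m - 2)) u (z1 c) = 0
    rw [h0, map_zero]
  · intro F
    have h := res_jf (R := Rel k v) u (hJF F)
    rw [Fintype.card_fin] at h
    exact h
  · have h1 : bd (rho Ω) (fun c => res (hi m (m - 2)) u (z1 c)) ∅ =
        res (hi m (m - 2)) u (bd (rho Ω) z1 ∅) :=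
      bd_map (rho Ω) ((res (hi m (m - 2)) u :
        ML k E (Fin m) →ₗ[k] ML k E {s // s ∈ hi m (m - 2)}) :
          ML k E (Fin m) →+ ML k E {s // s ∈ hi m (m - 2)}) z1 ∅
    rw [h1]
    exact res_dg u hbd0
  · intro hu hind P hP x hx
    have hPne : P.Nonempty := by
      rw [Set.nonempty_iff_ne_empty]
      intro h
      have h4 := hP.2.2.2
      rw [h, Matroid.eRk_empty] at h4
      exact absurd h4.symm (by simp)
    obtain ⟨e0, _⟩ := hPne
    let a : Fin m → E := fun s => if h : s ∈ hi m (m - 2) then e0 else u ⟨s, h⟩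
    have ha : ∀ t : {s // s ∉ hi m (m - 2)}, a t.1 = u t := by
      intro t
      show (if h : t.1 ∈ hi m (m - 2) then e0 else u ⟨t.1, h⟩) = u t
      rw [dif_neg t.2]
    have hmem : ∀ s : Fin m, s ∉ hi m (m - 2) ↔
        s ∈ ({(⟨m - 2, by omega⟩ : Fin m), (⟨m - 1, by omega⟩ : Fin m)} : Set (Fin m))ᶜ := by
      intro s
      rw [hS]
      simp
    have himg : a '' ({(⟨m - 2, by omega⟩ : Fin m), (⟨m - 1, by omega⟩ : Fin m)} : Set (Fin m))ᶜ =
        Set.range u := by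
      ext e
      constructor
      · rintro ⟨s, hs, rfl⟩
        exact ⟨⟨s, (hmem s).2 hs⟩, (ha ⟨s, (hmem s).2 hs⟩).symm⟩
      · rintro ⟨t, rfl⟩
        exact ⟨t.1, (hmem t.1).1 t.2, ha t⟩
    have hinj : InjOn a
        ({(⟨m - 2, by omega⟩ : Fin m), (⟨m - 1, by omega⟩ : Fin m)} : Set (Fin m))ᶜ := by
      intro s hs t ht hst
      have h5 := ha ⟨s, (hmem s).2 hs⟩
      have h6 := ha ⟨t, (hmem t).2 ht⟩
      have h7 : u ⟨s, (hmem s).2 hs⟩ = u ⟨t, (hmem t).2 ht⟩ := by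
        rw [← h5, ← h6]
        exact hst
      exact congrArg Subtype.val (hu h7)
    rw [yp hc.ground hrk' h12 hS hgt hsupp hJF (by rw [← hS2]; exact hb) u hu hind hP hx a ha]
    exact Pool.Agent.QC.bridge hc hv hq hrk' b h0 h12 a hinj (by rw [himg]; exact hind) P
      (by rw [himg]; exact hP) x (by rw [himg]; exact hx)

end Pool.Agent.AX2
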