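import Pool.Agent.AX.Thr
import Pool.Agent.AX.Inf3
import Pool.Agent.W3.Flag
import Pool.Agent.W3.Cplx

/-!
Rows for a fixed word `u : κ' → E` in the case of two remaining slots, without the vanishing
statement `SZSt`.

Proof of `rowU2`. Let `C : PF Ω` be the flat `Ω.closure (range u)` (`cu_ne_univ`). For `F` with
`thr Ω m u F ≠ 0` let `φ F : PF Ω` be the flat `Ω.closure (F ∪ range u)` of `thr_step`, with
`thr F ≤ thr (φ F)`. `F ≤ φ F`, `C ≤ φ F`. Let `B` be the set of the `F` with `thr F ≠ 0` and put
`w := ∑ F ∈ B with F ≠ φ F, δ {F, φ F} (- z {F}) + ∑ F ∈ B with φ F ≠ C, δ {C, φ F} (z {F})`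
(`δ c x` is the function with value `x` at `c` and zero elsewhere).
Boundary: for `A < B'` (so `ρ A < ρ B'`, `rho_strictMono`) and `f := δ {A, B'} x`:
`bd f {X} = x` if `X = B'`, `- x` if `X = A`, otherwise zero (`eps A {B'} = 1`, `eps B' {A} = -1`), and
`bd f c = 0` if `c` is not a singleton. So `bd w c = 0` if `c` is not a singleton, and
`bd w {X} = ∑ F ∈ B, z {F} * (- [X = φ F] + [X = F] + [X = φ F] - [X = C])` (if `F = φ F` or `φ F = C` the
corresponding bracket is zero anyway) `= (if X ∈ B then z {X} else 0) - (if X = C then ∑ F ∈ B, z {F} else 0)`.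
So `z {X} - bd w {X}` is the sum of `z {X}` if `X ∉ B` (in `ZD R κ` by `h2`, `oc_zero`) and, if `X = C`, of
`∑ F ∈ B, z {F} = bd z ∅ - ∑ F ∉ B, z {F} ∈ ZD R κ` (`h3`; `bd z ∅ = ∑ F, z {F}`). For `c` not a singleton `z c = 0`
by `h1`.
Membership: `w` is supported on the `{F, φ F}`, `F < φ F`, and `{C, G}`, `C < G`, which are chains with two
elements. `z {F} ∈ OC (R ⊓ van F) R (thr F)` is in `OC (R ⊓ van G) R (thr G)` for `G = φ F` (`oc_mono`,
`van k G ≤ van k F`). It remains that `w {C, G}` is in `OC (R ⊓ van C) R (thr C)` for `C < G` (a set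
`{F, φ F}` is not of the form `{C, G}` with `C < G`: `F = C` would give `φ F = C`, and `φ F = C`, `F = G` would give
`G < C`; so `w {C, G} = ∑ F ∈ B with φ F = G, z {F}`; if `φ F = C`, `F < C` then the pair is `{F, C}` and we need
`z {F} ∈ J C`, the case `G = φ F` above). If `u` is not injective or its range is dependent then
`card κ < thr C` (`thr_dep`) and `oc_big`. Otherwise (`thr_indep`) `thr C = 2 = card κ` and `oc_full`: let
`x ∈ R ⊓ van C`. As `C < G`, `eRk C + 2 = eRank`, `G ≠ univ` is a flat, `Cov Ω C G`; `hH` says
`∑ F, (if closure (F ∪ range u) = G then z {F} (fun _ => x) else 0) = 0`; the terms with `F ∉ B` are zero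
(`oc_zero`), so `w {C, G} (fun _ => x) = 0`.
-/

set_option autoImplicit false

namespace Pool.Agent.AX2

open Pool.Agent.W3 Pool.Agent.AX

section Cx

variable {P V : Type*} [Fintype P] [AddCommGroup V] (ρ : P → ℕ)

theorem bd_fsum {ι : Type*} (s : Finset ι) (f : ι → Finset P → V) (c : Finset P) :
    bd ρ (fun c => ∑ i ∈ s, f i c) c = ∑ i ∈ s, bd ρ (f i) c := by
  classical
  unfold bd
  rw [Finset.sum_comm]
  refine Finset.sum_congr rfl fun F _ => ?_
  rw [Finset.smul_sum]

open Classical in
/-- The function with the value `x` at `c0`. -/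
noncomputable def dl (c0 : Finset P) (x : V) (c : Finset P) : V := if c = c0 then x else 0

open Classical in
theorem bd_dl {A B : P} (hAB : ρ A < ρ B) (x : V) (c : Finset P) :
    bd ρ (dl {A, B} x) c = (if c = {B} then x else 0) - (if c = {A} then x else 0) := by
  have hne : A ≠ B := by
    rintro rfl
    exact lt_irrefl _ hAB
  have hkey : ∀ F, F ∉ c → (insert F c = {A, B} ↔ (F = A ∧ c = {B}) ∨ (F = B ∧ c = {A})) := by
    intro F hF
    constructor
    · intro h
      have h1 : F = A ∨ F = B := by
        have : F ∈ ({A, B} : Finset P) := by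
          rw [← h]
          exact Finset.mem_insert_self F c
        simpa using this
      have h2 : c = ({A, B} : Finset P).erase F := by
        rw [← h, Finset.erase_insert hF]
      rcases h1 with rfl | rfl
      · left
        refine ⟨rfl, ?_⟩
        rw [h2, Finset.erase_insert (by simpa using hne)]
      · right
        refine ⟨rfl, ?_⟩
        rw [h2, Finset.pair_comm, Finset.erase_insert (by simpa using hne.symm)]
    · rintro (⟨rfl, rfl⟩ | ⟨rfl, rfl⟩)
      · rfl
      · exact Finset.pair_comm _ _
  have e1 : eps ρ A {B} = 1 := by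
    unfold eps
    rw [Finset.filter_singleton, if_neg (not_lt.2 hAB.le), Finset.card_empty, pow_zero]
  have e2 : eps ρ B {A} = -1 := by
    unfold eps
    rw [Finset.filter_singleton, if_pos hAB, Finset.card_singleton, pow_one]
  unfold bd dl
  by_cases hB : c = {B}
  · subst hB
    rw [if_pos rfl, if_neg (by simpa using hne.symm), sub_zero,
      Finset.sum_eq_single A]
    · rw [if_pos ((hkey A (by simpa using hne)).2 (Or.inl ⟨rfl, rfl⟩)), e1, one_smul]
    · intro F hF hFA
      rw [Finset.mem_sdiff] at hF
      rw [if_neg, smul_zero]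
      intro h
      rcases (hkey F hF.2).1 h with ⟨h1, _⟩ | ⟨h1, h2⟩
      · exact hFA h1
      · exact hne.symm (Finset.singleton_injective h2)
    · intro h
      exfalso
      apply h
      rw [Finset.mem_sdiff]
      exact ⟨Finset.mem_univ _, by simpa using hne⟩
  · rw [if_neg hB]
    by_cases hA : c = {A}
    · subst hA
      rw [if_pos rfl, zero_sub, Finset.sum_eq_single B]
      · rw [if_pos ((hkey B (by simpa using hne.symm)).2 (Or.inr ⟨rfl, rfl⟩)), e2, neg_one_smul]
      · intro F hF hFA
        rw [Finset.mem_sdiff] at hF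
        rw [if_neg, smul_zero]
        intro h
        rcases (hkey F hF.2).1 h with ⟨h1, h2⟩ | ⟨h1, _⟩
        · exact hne (Finset.singleton_injective h2)
        · exact hFA h1
      · intro h
        exfalso
        apply h
        rw [Finset.mem_sdiff]
        exact ⟨Finset.mem_univ _, by simpa using hne.symm⟩
    · rw [if_neg hA, sub_zero]
      refine Finset.sum_eq_zero fun F hF => ?_
      rw [Finset.mem_sdiff] at hF
      rw [if_neg, smul_zero]
      intro h
      rcases (hkey F hF.2).1 h with ⟨_, h2⟩ | ⟨_, h2⟩
      · exact hB h2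
      · exact hA h2

end Cx

variable {E : Type*} [Fintype E] {Ω : Matroid E} {k : Type*} [Field k]
  {R : Submodule k (E → k)} {κ κ' : Type*} [Fintype κ] [DecidableEq κ] [Fintype κ'] {m : ℕ}

open Classical in
theorem rowU2 (hΩ : Ω.E = Set.univ) (hrk : Ω.eRank = m) [Infinite k]
    (hm : Fintype.card κ + Fintype.card κ' = m) (hκ : Fintype.card κ = 2)
    (u : κ' → E) (z : Finset (PF Ω) → ML k E κ) (h1 : ∀ c, z c ≠ 0 → c.card = 1)
    (h2 : ∀ F : PF Ω, z {F} ∈ OC (R ⊓ van k F.1) R (thr Ω m u F))
    (h3 : bd (rho Ω) z ∅ ∈ ZD R κ)
    (hH : Function.Injective u → Ω.Indep (Set.range u) → ∀ P : Set E,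
      Cov Ω (Ω.closure (Set.range u)) P → ∀ x ∈ R ⊓ van k (Ω.closure (Set.range u)),
      ∑ F : PF Ω, (if Ω.closure (F.1 ∪ Set.range u) = P then z {F} (fun _ => x) else 0) = 0) :
    RowSt Ω R m 1 u z := by
  have hρ : StrictMono (rho Ω) := rho_strictMono hΩ
  -- the flat spanned by `u`
  have hCne : Ω.closure (Set.range u) ≠ Set.univ := cu_ne_univ hΩ hrk (by omega) u
  obtain ⟨C, hC⟩ : ∃ C : PF Ω, C.1 = Ω.closure (Set.range u) :=
    ⟨⟨_, Ω.isFlat_closure _, hCne⟩, rfl⟩
  have hsubE : ∀ X : Set E, X ⊆ Ω.E := fun X => by
    rw [hΩ]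
    exact Set.subset_univ _
  -- the map `φ`
  have hex : ∀ F : PF Ω, ∃ G : PF Ω, thr Ω m u F ≠ 0 →
      (G.1 = Ω.closure (F.1 ∪ Set.range u) ∧ thr Ω m u F ≤ thr Ω m u G) := by
    intro F
    rcases thr_step hΩ hrk u F with h | ⟨G, hG, hG'⟩
    · exact ⟨F, fun h' => absurd h h'⟩
    · exact ⟨G, fun _ => ⟨hG, hG'⟩⟩
  choose φ hφ using hex
  set B : Finset (PF Ω) := Finset.univ.filter (fun F => thr Ω m u F ≠ 0) with hB
  have memB : ∀ F, F ∈ B ↔ thr Ω m u F ≠ 0 := by
    intro F
    rw [hB, Finset.mem_filter]
    exact ⟨fun h => h.2, fun h => ⟨Finset.mem_univ _, h⟩⟩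
  have hle1 : ∀ F ∈ B, F ≤ φ F := by
    intro F hF
    have h := (hφ F ((memB F).1 hF)).1
    show F.1 ⊆ (φ F).1
    rw [h]
    exact Set.subset_union_left.trans (Ω.subset_closure _ (hsubE _))
  have hle2 : ∀ F ∈ B, C ≤ φ F := by
    intro F hF
    have h := (hφ F ((memB F).1 hF)).1
    show C.1 ⊆ (φ F).1
    rw [h, hC]
    exact Ω.closure_subset_closure Set.subset_union_right
  -- elements outside `B`
  have hout : ∀ F, F ∉ B → z {F} ∈ ZD R κ := by
    intro F hF
    have h : thr Ω m u F = 0 := by
      by_contra h'
      exact hF ((memB F).2 h')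
    have h4 := h2 F
    rw [h] at h4
    exact oc_zero h4
  -- the boundary of `z`
  have hbz : bd (rho Ω) z ∅ = ∑ F, z {F} := by
    unfold bd
    rw [Finset.sdiff_empty]
    refine Finset.sum_congr rfl fun F _ => ?_
    have e1 : eps (rho Ω) F ∅ = 1 := by
      unfold eps
      rw [Finset.filter_empty, Finset.card_empty, pow_zero]
    rw [e1, one_smul]
    rfl
  have hsumB : ∑ F ∈ B, z {F} ∈ ZD R κ := by
    have e1 : ∑ F ∈ B, z {F} = bd (rho Ω) z ∅ - ∑ F ∈ Bᶜ, z {F} := by
      rw [hbz, ← Finset.sum_add_sum_compl B (fun F => z {F})]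
      abel
    rw [e1]
    refine sub_mem h3 (Submodule.sum_mem _ fun F hF => hout F ?_)
    rw [Finset.mem_compl] at hF
    exact hF
  -- the chain
  set w1 : Finset (PF Ω) → ML k E κ := fun c => ∑ F ∈ B,
    (if F ≠ φ F then dl {F, φ F} (- z {F}) c else 0) with hw1
  set w2 : Finset (PF Ω) → ML k E κ := fun c => ∑ F ∈ B,
    (if C ≠ φ F then dl {C, φ F} (z {F}) c else 0) with hw2
  have hb1 : ∀ c, bd (rho Ω) w1 c = ∑ F ∈ B,
      ((if c = {F} then z {F} else 0) - (if c = {φ F} then z {F} else 0)) := by
    intro c
    rw [hw1, bd_fsum (rho Ω) B (fun F c => if F ≠ φ F then dl {F, φ F} (- z {F}) c else 0)]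
    refine Finset.sum_congr rfl fun F hF => ?_
    by_cases h : F = φ F
    · rw [← h, sub_self]
      unfold bd
      refine Finset.sum_eq_zero fun G _ => ?_
      simp
    · have hlt : rho Ω F < rho Ω (φ F) := hρ (lt_of_le_of_ne (hle1 F hF) h)
      simp only [ne_eq, h, not_false_eq_true, if_true]
      rw [bd_dl (rho Ω) hlt]
      by_cases c1 : c = {F}
      · have c2 : c ≠ {φ F} := by
          rw [c1]
          intro h'
          exact h (Finset.singleton_injective h')
        rw [if_neg c2, if_pos c1, if_pos c1, if_neg c2]
        abel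
      · rw [if_neg c1, if_neg c1]
        split_ifs <;> abel
  have hb2 : ∀ c, bd (rho Ω) w2 c = ∑ F ∈ B,
      ((if c = {φ F} then z {F} else 0) - (if c = {C} then z {F} else 0)) := by
    intro c
    rw [hw2, bd_fsum (rho Ω) B (fun F c => if C ≠ φ F then dl {C, φ F} (z {F}) c else 0)]
    refine Finset.sum_congr rfl fun F hF => ?_
    by_cases h : C = φ F
    · rw [← h, sub_self]
      unfold bd
      refine Finset.sum_eq_zero fun G _ => ?_
      simp
    · have hlt : rho Ω C < rho Ω (φ F) := hρ (lt_of_le_of_ne (hle2 F hF) h)
      simp only [ne_eq, h, not_false_eq_true, if_true]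
      rw [bd_dl (rho Ω) hlt]
  have hmono : ∀ F ∈ B, z {F} ∈ OC (R ⊓ van k (φ F).1) R (thr Ω m u (φ F)) := by
    intro F hF
    refine oc_mono ?_ le_rfl (hφ F ((memB F).1 hF)).2 (h2 F)
    refine inf_le_inf_left _ ?_
    intro x hx e he
    exact hx e (hle1 F hF he)
  refine ⟨fun c => w1 c + w2 c, ?_, ?_, ?_⟩
  · intro c hc
    have hor : w1 c ≠ 0 ∨ w2 c ≠ 0 := by
      by_contra h
      rw [not_or, not_not, not_not] at h
      refine hc ?_
      show w1 c + w2 c = 0
      rw [h.1, h.2, add_zero]
    have hpair : ∀ A D : PF Ω, A < D → c = {A, D} →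
        IsChain (· ≤ ·) (c : Set (PF Ω)) ∧ c.card = 1 + 1 := by
      intro A D hAD hcA
      subst hcA
      refine ⟨?_, Finset.card_pair hAD.ne⟩
      intro x hx y hy hxy
      simp only [Finset.coe_insert, Finset.coe_singleton, Set.mem_insert_iff,
        Set.mem_singleton_iff] at hx hy
      rcases hx with rfl | rfl
      · rcases hy with rfl | rfl
        · exact absurd rfl hxy
        · exact Or.inl hAD.le
      · rcases hy with rfl | rfl
        · exact Or.inr hAD.le
        · exact absurd rfl hxy
    rcases hor with h | h
    · obtain ⟨F, hF, hF2⟩ := Finset.exists_ne_zero_of_sum_ne_zero h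
      by_cases h5 : F ≠ φ F
      · rw [if_pos h5] at hF2
        unfold dl at hF2
        by_cases h6 : c = {F, φ F}
        · exact hpair _ _ (lt_of_le_of_ne (hle1 F hF) h5) h6
        · rw [if_neg h6] at hF2
          exact absurd rfl hF2
      · rw [if_neg h5] at hF2
        exact absurd rfl hF2
    · obtain ⟨F, hF, hF2⟩ := Finset.exists_ne_zero_of_sum_ne_zero h
      by_cases h5 : C ≠ φ F
      · rw [if_pos h5] at hF2
        unfold dl at hF2
        by_cases h6 : c = {C, φ F}
        · exact hpair _ _ (lt_of_le_of_ne (hle2 F hF) h5) h6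
        · rw [if_neg h6] at hF2
          exact absurd rfl hF2
      · rw [if_neg h5] at hF2
        exact absurd rfl hF2
  · intro c G hG
    refine add_mem ?_ ?_
    · refine Submodule.sum_mem _ fun F hF => ?_
      split_ifs with h5
      · unfold dl
        split_ifs with h6
        · refine neg_mem ?_
          rw [h6, Finset.mem_insert, Finset.mem_singleton] at hG
          rcases hG with rfl | rfl
          · exact h2 _
          · exact hmono F hF
        · exact zero_mem _
      · exact zero_mem _
    · by_cases hGC : G = C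
      · subst hGC
        by_cases hind : Function.Injective u ∧ Ω.Indep (Set.range u)
        · obtain ⟨hr1, hr2⟩ := thr_indep hΩ hrk hm u hind G hC
          rw [hr2, oc_full]
          intro x hx
          -- the other element of `c`
          by_cases hw : w2 c = 0
          · rw [hw]
            rfl
          obtain ⟨F0, hF0, hF02⟩ := Finset.exists_ne_zero_of_sum_ne_zero hw
          have h5 : G ≠ φ F0 := by
            intro h5
            rw [if_neg (not_not.2 h5)] at hF02
            exact hF02 rfl
          rw [if_pos h5] at hF02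
          unfold dl at hF02
          have h6 : c = {G, φ F0} := by
            by_contra h6
            rw [if_neg h6] at hF02
            exact hF02 rfl
          set D := φ F0 with hD
          have hGD : G < D := lt_of_le_of_ne (hle2 F0 hF0) h5
          have hcov : Cov Ω (Ω.closure (Set.range u)) D.1 := by
            rw [← hC]
            refine ⟨G.2.1, D.2.1, hGD.le, ?_⟩
            have hne : ∀ X : Set E, Ω.eRk X ≠ ⊤ := fun X =>
              ne_top_of_le_ne_top (Set.encard_ne_top_iff.2 X.toFinite) (Ω.eRk_le_encard X)
            have hrc : ∀ F : PF Ω, (rho Ω F : ℕ∞) = Ω.eRk F.1 := fun F =>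
              ENat.natCast_toNat (hne _)
            have i1 : rho Ω G < rho Ω D := hρ hGD
            have i2 : rho Ω D < m := by
              have j1 : Ω.eRk (insert (Classical.choose (Set.exists_of_ssubset
                  (lt_of_le_of_ne (Set.subset_univ D.1) D.2.2))) D.1) = Ω.eRk D.1 + 1 := by
                apply Matroid.eRk_insert_eq_add_one
                rw [D.2.1.closure, hΩ]
                exact ⟨Set.mem_univ _, (Classical.choose_spec (Set.exists_of_ssubset
                  (lt_of_le_of_ne (Set.subset_univ D.1) D.2.2))).2⟩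
              have j2 := Ω.eRk_le_eRank (insert (Classical.choose (Set.exists_of_ssubset
                  (lt_of_le_of_ne (Set.subset_univ D.1) D.2.2))) D.1)
              rw [j1, hrk, ← hrc] at j2
              have j3 : rho Ω D + 1 ≤ m := by exact_mod_cast j2
              omega
            have i3 : rho Ω G + 2 = m := by
              rw [← hrc, hκ, hrk] at hr1
              exact_mod_cast hr1
            have i4 : rho Ω D = rho Ω G + 1 := by omega
            rw [← hrc, ← hrc, i4]
            push_cast
            rfl
          have hH2 := hH hind.1 hind.2 D.1 hcov x (by rw [← hC]; exact hx)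
          rw [hw2, h6]
          rw [← hH2]
          have e3 : ∀ F, (if Ω.closure (F.1 ∪ Set.range u) = D.1 then z {F} (fun _ => x)
              else 0) = if F ∈ B then (if D = φ F then z {F} (fun _ => x) else 0) else 0 := by
            intro F
            by_cases hFB : F ∈ B
            · rw [if_pos hFB]
              have h7 := (hφ F ((memB F).1 hFB)).1
              rw [← h7]
              by_cases h8 : D = φ F
              · rw [if_pos h8, if_pos (by rw [h8])]
              · rw [if_neg h8, if_neg]
                intro h9
                exact h8 (Subtype.ext h9.symm)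
            · rw [if_neg hFB]
              split_ifs
              · exact hout F hFB x hx.1
              · rfl
          rw [Finset.sum_congr rfl fun F _ => e3 F, Finset.sum_ite_mem, Finset.univ_inter]
          show (∑ F ∈ B, (if G ≠ φ F then dl {G, φ F} (z {F}) {G, D} else 0)) (fun _ => x) = _
          rw [_root_.sum_apply]
          refine Finset.sum_congr rfl fun F hF => ?_
          by_cases h8 : D = φ F
          · rw [if_pos h8, ← h8, if_pos h5]
            unfold dl
            rw [if_pos rfl]
          · rw [if_neg h8]
            split_ifs with h10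
            · unfold dl
              rw [if_neg]
              · rfl
              · intro h9
                apply h8
                have h11 : D ∈ ({G, φ F} : Finset (PF Ω)) := by
                  rw [← h9]
                  simp
                rw [Finset.mem_insert, Finset.mem_singleton] at h11
                rcases h11 with h11 | h11
                · exact absurd h11.symm h5
                · exact h11
            · rfl
        · rw [oc_big (thr_dep hΩ hrk hm (by omega) u hind G hC)]
          exact Submodule.mem_top
      · refine Submodule.sum_mem _ fun F hF => ?_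
        split_ifs with h5
        · unfold dl
          split_ifs with h6
          · rw [h6, Finset.mem_insert, Finset.mem_singleton] at hG
            rcases hG with rfl | rfl
            · exact absurd rfl hGC
            · exact hmono F hF
          · exact zero_mem _
        · exact zero_mem _
  · intro c
    have hbd : bd (rho Ω) (fun c => w1 c + w2 c) c = ∑ F ∈ B,
        ((if c = {F} then z {F} else 0) - (if c = {C} then z {F} else 0)) := by
      rw [bd_add, hb1, hb2, ← Finset.sum_add_distrib]
      refine Finset.sum_congr rfl fun F _ => ?_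
      abel
    rw [hbd]
    by_cases hc : c.card = 1
    · obtain ⟨X, rfl⟩ := Finset.card_eq_one.1 hc
      rw [Finset.sum_sub_distrib]
      have e1 : ∑ F ∈ B, (if ({X} : Finset (PF Ω)) = {F} then z {F} else 0) =
          if X ∈ B then z {X} else 0 := by
        rw [← Finset.sum_ite_eq B X (fun F => z {F})]
        refine Finset.sum_congr rfl fun F _ => ?_
        by_cases h : X = F
        · rw [if_pos h, if_pos (by rw [h])]
        · rw [if_neg h, if_neg (fun h' => h (Finset.singleton_injective h'))]
      rw [e1]
      have e2 : z {X} - ((if X ∈ B then z {X} else 0) -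
          ∑ F ∈ B, (if ({X} : Finset (PF Ω)) = {C} then z {F} else 0)) =
          (z {X} - if X ∈ B then z {X} else 0) +
            ∑ F ∈ B, (if ({X} : Finset (PF Ω)) = {C} then z {F} else 0) := by
        abel
      rw [e2]
      refine add_mem ?_ ?_
      · split_ifs with h
        · rw [sub_self]
          exact zero_mem _
        · rw [sub_zero]
          exact hout X h
      · by_cases h : ({X} : Finset (PF Ω)) = {C}
        · simp only [h, if_true]
          exact hsumB
        · simp only [h, if_false, Finset.sum_const_zero]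
          exact zero_mem _
    · have hz : z c = 0 := by
        by_contra h
        exact hc (h1 c h)
      rw [hz, Finset.sum_eq_zero, sub_zero]
      · exact zero_mem _
      · intro F _
        rw [if_neg, if_neg, sub_zero]
        · rintro rfl
          exact hc (Finset.card_singleton _)
        · rintro rfl
          exact hc (Finset.card_singleton _)

end Pool.Agent.AX2
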